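import Mathlib
import Pool.Agent.W545.QI.Stms

set_option autoImplicit false
open scoped ContDiff ComplexConjugate Real
open MeasureTheory

namespace Pool.Agent.W7.QI

open Pool.Agent.W545.QI

/-- derivative of `q` -/
noncomputable def dq' (t : ℝ) : ℝ :=
  (((-Real.sin t) * (Real.sin t + 3 * Real.cos t) + Real.cos t * (Real.cos t + 3 * (-Real.sin t))) *
    (Real.sin t - Real.cos t) + Real.cos t * (Real.sin t + 3 * Real.cos t) *
      (Real.cos t - (-Real.sin t))) * (Real.sin t - 2 * Real.cos t) +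
  Real.cos t * (Real.sin t + 3 * Real.cos t) * (Real.sin t - Real.cos t) *
    (Real.cos t - 2 * (-Real.sin t))

/-- derivative of `f` -/
noncomputable def df' (t : ℝ) : ℝ :=
  ((4 * Real.cos t ^ 3 * (-Real.sin t)) * (Real.sin t + 3 * Real.cos t) +
    Real.cos t ^ 4 * (Real.cos t + 3 * (-Real.sin t))) * (Real.sin t - Real.cos t) ^ 3 +
  Real.cos t ^ 4 * (Real.sin t + 3 * Real.cos t) *
    (3 * (Real.sin t - Real.cos t) ^ 2 * (Real.cos t - (-Real.sin t)))

theorem hq (t : ℝ) : HasDerivAt q (dq' t) t := by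
  have hs := Real.hasDerivAt_sin t
  have hc := Real.hasDerivAt_cos t
  exact ((hc.mul (hs.add (hc.const_mul 3))).mul (hs.sub hc)).mul (hs.sub (hc.const_mul 2))

theorem hf (t : ℝ) : HasDerivAt f (df' t) t := by
  have hs := Real.hasDerivAt_sin t
  have hc := Real.hasDerivAt_cos t
  have h := ((hc.pow 4).mul (hs.add (hc.const_mul 3))).mul ((hs.sub hc).pow 3)
  refine h.congr_deriv ?_
  unfold df'
  simp only [Pi.add_apply, Pi.mul_apply, Pi.pow_apply, Pi.sub_apply]
  norm_num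

theorem ident (t : ℝ) : q t * df' t - 2 * dq' t * f t + 2 * f t = 0 := by
  have h := Real.sin_sq_add_cos_sq t
  have e : q t * df' t - 2 * dq' t * f t + 2 * f t * (Real.sin t ^ 2 + Real.cos t ^ 2) ^ 2 = 0 := by
    unfold q df' dq' f
    ring
  rw [h] at e
  linarith

/-- the coordinates -/
noncomputable def X1 : Ph →L[ℝ] ℝ :=
  (ContinuousLinearMap.fst ℝ ℝ ℝ).comp (ContinuousLinearMap.fst ℝ (ℝ × ℝ) (ℝ × ℝ))
noncomputable def X2 : Ph →L[ℝ] ℝ :=
  (ContinuousLinearMap.snd ℝ ℝ ℝ).comp (ContinuousLinearMap.fst ℝ (ℝ × ℝ) (ℝ × ℝ))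
noncomputable def E1 : Ph →L[ℝ] ℝ :=
  (ContinuousLinearMap.fst ℝ ℝ ℝ).comp (ContinuousLinearMap.snd ℝ (ℝ × ℝ) (ℝ × ℝ))
noncomputable def E2 : Ph →L[ℝ] ℝ :=
  (ContinuousLinearMap.snd ℝ ℝ ℝ).comp (ContinuousLinearMap.snd ℝ (ℝ × ℝ) (ℝ × ℝ))

theorem hX1 (z : Ph) : HasFDerivAt (fun z : Ph => z.1.1) X1 z := X1.hasFDerivAt
theorem hX2 (z : Ph) : HasFDerivAt (fun z : Ph => z.1.2) X2 z := X2.hasFDerivAt
theorem hE1 (z : Ph) : HasFDerivAt (fun z : Ph => z.2.1) E1 z := E1.hasFDerivAt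
theorem hE2 (z : Ph) : HasFDerivAt (fun z : Ph => z.2.2) E2 z := E2.hasFDerivAt

/-- differential of `p₁` -/
noncomputable def L1 (z : Ph) : Ph →L[ℝ] ℝ :=
  (Real.cos z.1.2 * dq' z.1.1 * z.2.1) • X1 +
  (-Real.sin z.1.2 * q z.1.1 * z.2.1 + 2 * Real.cos z.1.2 * z.2.2) • X2 +
  (Real.cos z.1.2 * q z.1.1) • E1 + (2 * Real.sin z.1.2) • E2

/-- differential of `p₂` -/
noncomputable def L2 (z : Ph) : Ph →L[ℝ] ℝ :=
  (Real.sin z.1.2 * df' z.1.1 * z.2.1 ^ 2) • X1 +
  (Real.cos z.1.2 * f z.1.1 * z.2.1 ^ 2) • X2 +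
  (2 * Real.sin z.1.2 * f z.1.1 * z.2.1) • E1

theorem hp1 (z : Ph) : HasFDerivAt p₁ (L1 z) z := by
  have h1 := (hX2 z).cos
  have h2 := (hq z.1.1).comp_hasFDerivAt z (hX1 z)
  have h3 := (hX2 z).sin
  have h := ((h1.mul h2).mul (hE1 z)).add ((h3.const_mul 2).mul (hE2 z))
  refine h.congr_fderiv ?_
  unfold L1
  ext <;> simp <;> ring

theorem hp2 (z : Ph) : HasFDerivAt p₂ (L2 z) z := by
  have h1 := (hX2 z).sin
  have h2 := (hf z.1.1).comp_hasFDerivAt z (hX1 z)
  have h := (h1.mul h2).mul ((hE1 z).pow 2)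
  refine h.congr_fderiv ?_
  unfold L2
  ext <;> simp <;> ring

/-- the Poisson bracket vanishes -/
theorem t1 : S_COMM := by
  intro z
  unfold poisson rd
  rw [(hp1 z).fderiv, (hp2 z).fderiv]
  have h := ident z.1.1
  simp [L1, L2, X1, X2, E1, E2, dir]
  linear_combination (Real.sin z.1.2 * Real.cos z.1.2 * z.2.1 ^ 2) * h

theorem countable_zero (a b : ℝ) (hab : a ≠ 0 ∨ b ≠ 0) :
    {s : ℝ | a * Real.sin s + b * Real.cos s = 0}.Countable := by
  rcases Set.eq_empty_or_nonempty {s : ℝ | a * Real.sin s + b * Real.cos s = 0} with h | ⟨s0, h0⟩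
  · rw [h]; exact Set.countable_empty
  · refine (Set.countable_range (fun n : ℤ => s0 + n * π)).mono ?_
    intro s hs
    have h0' : a * Real.sin s0 + b * Real.cos s0 = 0 := h0
    have hs' : a * Real.sin s + b * Real.cos s = 0 := hs
    have h1 : Real.sin (s - s0) = 0 := by
      rw [Real.sin_sub]
      have e1 : a * (Real.sin s * Real.cos s0 - Real.cos s * Real.sin s0) = 0 := by
        linear_combination Real.cos s0 * hs' - Real.cos s * h0'
      have e2 : b * (Real.sin s * Real.cos s0 - Real.cos s * Real.sin s0) = 0 := by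
        linear_combination (-Real.sin s0) * hs' + Real.sin s * h0'
      rcases hab with h | h
      · exact (mul_eq_zero.1 e1).resolve_left h
      · exact (mul_eq_zero.1 e2).resolve_left h
    obtain ⟨n, hn⟩ := Real.sin_eq_zero_iff.1 h1
    exact ⟨n, by simp only; linarith⟩

theorem ae_sin : ∀ᵐ s : ℝ, Real.sin s ≠ 0 := by
  have h := countable_zero 1 0 (Or.inl one_ne_zero)
  refine measure_mono_null ?_ (h.measure_zero volume)
  intro s hs
  have : Real.sin s = 0 := by
    by_contra hc; exact hs hc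
  show 1 * Real.sin s + 0 * Real.cos s = 0
  rw [this]; ring

theorem ae_f : ∀ᵐ s : ℝ, f s ≠ 0 := by
  have h1 := countable_zero 0 1 (Or.inr one_ne_zero)
  have h2 := countable_zero 1 3 (Or.inl one_ne_zero)
  have h3 := countable_zero 1 (-1) (Or.inl one_ne_zero)
  refine measure_mono_null ?_ (((h1.union h2).union h3).measure_zero volume)
  intro s hs
  have : f s = 0 := by
    by_contra hc; exact hs hc
  unfold f at this
  rcases mul_eq_zero.1 this with h | h
  · rcases mul_eq_zero.1 h with h | h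
    · left; left
      show 0 * Real.sin s + 1 * Real.cos s = 0
      rw [pow_eq_zero_iff (by norm_num)] at h
      rw [h]; ring
    · left; right
      show 1 * Real.sin s + 3 * Real.cos s = 0
      linarith
  · right
    show 1 * Real.sin s + (-1) * Real.cos s = 0
    rw [pow_eq_zero_iff (by norm_num)] at h
    linarith

/-- the differentials are independent almost everywhere -/
theorem t2 : S_IND := by
  have q1 : Measure.QuasiMeasurePreserving (Prod.fst : Ph → ℝ × ℝ) volume volume :=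
    Measure.quasiMeasurePreserving_fst
  have q2 : Measure.QuasiMeasurePreserving (Prod.snd : Ph → ℝ × ℝ) volume volume :=
    Measure.quasiMeasurePreserving_snd
  have r1 : Measure.QuasiMeasurePreserving (Prod.fst : ℝ × ℝ → ℝ) volume volume :=
    Measure.quasiMeasurePreserving_fst
  have r2 : Measure.QuasiMeasurePreserving (Prod.snd : ℝ × ℝ → ℝ) volume volume :=
    Measure.quasiMeasurePreserving_snd
  have a1 : ∀ᵐ z : Ph, Real.sin z.1.2 ≠ 0 := (r2.comp q1).ae ae_sin
  have a2 : ∀ᵐ z : Ph, f z.1.1 ≠ 0 := (r1.comp q1).ae ae_f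
  have a3 : ∀ᵐ z : Ph, z.2.1 ≠ 0 := (r1.comp q2).ae (Measure.ae_ne volume 0)
  filter_upwards [a1, a2, a3] with z b1 b2 b3
  rw [(hp1 z).fderiv, (hp2 z).fderiv, LinearIndependent.pair_iff]
  intro s t hst
  have e1 := congrArg (fun L : Ph →L[ℝ] ℝ => L (dir 3)) hst
  have e2 := congrArg (fun L : Ph →L[ℝ] ℝ => L (dir 2)) hst
  simp [L1, L2, X1, X2, E1, E2, dir] at e1 e2
  have hs : s = 0 := by
    rcases e1 with h | h
    · exact h
    · exact absurd h b1
  refine ⟨hs, ?_⟩
  rw [hs] at e2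
  simp at e2
  rcases e2 with h | h
  · exact h
  · exfalso
    rcases h with (h | h) | h
    · exact b1 h
    · exact b2 h
    · exact b3 h

end Pool.Agent.W7.QI
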