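import Mathlib
import Pool.Agent.W545.QI.Stms
import Pool.Agent.W7.QI.Ind

set_option autoImplicit false
open scoped ContDiff ComplexConjugate Real
open MeasureTheory

namespace Pool.Agent.W7.QI

open Pool.Agent.W545.QI

variable {F G : ℝ × ℝ → ℝ}

theorem D1_smooth (hF : ContDiff ℝ ∞ F) : ContDiff ℝ ∞ (D1 F) :=
  (hF.fderiv_right (m := ∞) le_rfl).clm_apply contDiff_const

theorem D2_smooth (hF : ContDiff ℝ ∞ F) : ContDiff ℝ ∞ (D2 F) :=
  (hF.fderiv_right (m := ∞) le_rfl).clm_apply contDiff_const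

theorem fderiv_per (hF : Per F) (x : ℝ × ℝ) (n : ℤ × ℤ) :
    fderiv ℝ F (x.1 + 2 * π * n.1, x.2 + 2 * π * n.2) = fderiv ℝ F x := by
  have h := fderiv_comp_add_right (𝕜 := ℝ) (f := F) (x := x) (2 * π * n.1, 2 * π * n.2)
  have h2 : (fun y : ℝ × ℝ => F (y + (2 * π * n.1, 2 * π * n.2))) = F := by
    funext y
    exact hF y n
  rw [h2] at h
  rw [h]
  rfl

theorem D1_per (hF : Per F) : Per (D1 F) := by
  intro x n
  unfold D1
  rw [fderiv_per hF]

theorem D2_per (hF : Per F) : Per (D2 F) := by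
  intro x n
  unfold D2
  rw [fderiv_per hF]

theorem D1_SP (hF : SP F) : SP (D1 F) := ⟨D1_smooth hF.1, D1_per hF.2⟩
theorem D2_SP (hF : SP F) : SP (D2 F) := ⟨D2_smooth hF.1, D2_per hF.2⟩

theorem comm (hF : ContDiff ℝ ∞ F) : D2 (D1 F) = D1 (D2 F) := by
  funext x
  have hd : DifferentiableAt ℝ (fderiv ℝ F) x :=
    ((hF.fderiv_right (m := ∞) le_rfl).differentiable (by simp)) x
  have h1 : D2 (D1 F) x = fderiv ℝ (fderiv ℝ F) x (0, 1) (1, 0) := by
    unfold D2 D1
    rw [fderiv_clm_apply hd (differentiableAt_const _)]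
    simp
  have h2 : D1 (D2 F) x = fderiv ℝ (fderiv ℝ F) x (1, 0) (0, 1) := by
    unfold D2 D1
    rw [fderiv_clm_apply hd (differentiableAt_const _)]
    simp
  rw [h1, h2]
  have hs : IsSymmSndFDerivAt ℝ F x :=
    (hF.contDiffAt).isSymmSndFDerivAt (by
      rw [minSmoothness_of_isRCLikeNormedField]; exact WithTop.coe_le_coe.2 (le_top : (2 : ℕ∞) ≤ ⊤))
  exact hs _ _

theorem hy (hF : ContDiff ℝ ∞ F) (s y : ℝ) : HasDerivAt (fun t => F (s, t)) (D2 F (s, y)) y := by
  have h1 : HasFDerivAt F (fderiv ℝ F (s, y)) (s, y) :=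
    ((hF.differentiable (by simp)) (s, y)).hasFDerivAt
  have h2 : HasDerivAt (fun t : ℝ => (s, t)) ((0 : ℝ), (1 : ℝ)) y :=
    (hasDerivAt_const y s).prodMk (hasDerivAt_id y)
  exact h1.comp_hasDerivAt y h2

theorem hx (hF : ContDiff ℝ ∞ F) (s y : ℝ) : HasDerivAt (fun t => F (t, y)) (D1 F (s, y)) s := by
  have h1 : HasFDerivAt F (fderiv ℝ F (s, y)) (s, y) :=
    ((hF.differentiable (by simp)) (s, y)).hasFDerivAt
  have h2 : HasDerivAt (fun t : ℝ => (t, y)) ((1 : ℝ), (0 : ℝ)) s :=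
    (hasDerivAt_id s).prodMk (hasDerivAt_const s y)
  exact h1.comp_hasDerivAt s h2

/-- Taylor coefficients -/
def c0 (F : ℝ × ℝ → ℝ) (s : ℝ) : ℝ := F (s, 0)
noncomputable def c1 (F : ℝ × ℝ → ℝ) (s : ℝ) : ℝ := D2 F (s, 0)
noncomputable def c2 (F : ℝ × ℝ → ℝ) (s : ℝ) : ℝ := (1 / 2) * D2 (D2 F) (s, 0)

theorem c0_smooth (hF : ContDiff ℝ ∞ F) : ContDiff ℝ ∞ (c0 F) :=
  hF.comp (contDiff_id.prodMk contDiff_const)

theorem c1_smooth (hF : ContDiff ℝ ∞ F) : ContDiff ℝ ∞ (c1 F) :=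
  (D2_smooth hF).comp (contDiff_id.prodMk contDiff_const)

theorem c2_smooth (hF : ContDiff ℝ ∞ F) : ContDiff ℝ ∞ (c2 F) :=
  contDiff_const.mul ((D2_smooth (D2_smooth hF)).comp (contDiff_id.prodMk contDiff_const))

theorem dc0 (hF : ContDiff ℝ ∞ F) (s : ℝ) : deriv (c0 F) s = D1 F (s, 0) := (hx hF s 0).deriv

theorem dc1 (hF : ContDiff ℝ ∞ F) (s : ℝ) : deriv (c1 F) s = D2 (D1 F) (s, 0) := by
  rw [comm hF]
  exact (hx (D2_smooth hF) s 0).deriv

theorem dc2 (hF : ContDiff ℝ ∞ F) (s : ℝ) : deriv (c2 F) s = (1 / 2) * D2 (D2 (D1 F)) (s, 0) := by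
  rw [comm hF, comm (D2_smooth hF)]
  exact ((hx (D2_smooth (D2_smooth hF)) s 0).const_mul (1 / 2)).deriv

theorem c_per (hF : Per F) (s : ℝ) : F (s + 2 * π, 0) = F (s, 0) := by
  have := hF (s, 0) (1, 0)
  simpa using this

/-- maximum principle -/
theorem max_pr (g : ℝ → ℝ) (hg : ContDiff ℝ ∞ g) (hp : ∀ s, g (s + 2 * π) = g s) (Q : ℝ → ℝ)
    (c : ℝ) (hc : c ≠ 0) (h : ∀ s, Q s * deriv g s + c * g s = 0) (s : ℝ) : g s = 0 := by
  have hper : Function.Periodic g (2 * π) := hp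
  have hpi : (0 : ℝ) < 2 * π := by positivity
  have hcomp : IsCompact (Set.Icc (0 : ℝ) (2 * π)) := isCompact_Icc
  have hne : (Set.Icc (0 : ℝ) (2 * π)).Nonempty := ⟨0, by simp [hpi.le]⟩
  have hred : ∀ t, ∃ t' ∈ Set.Icc (0 : ℝ) (2 * π), g t' = g t := by
    intro t
    obtain ⟨y, hy, hty⟩ := hper.exists_mem_Ico₀ hpi t
    exact ⟨y, ⟨hy.1, hy.2.le⟩, hty.symm⟩
  apply le_antisymm
  · obtain ⟨t, -, ht⟩ := hcomp.exists_isMaxOn hne hg.continuous.continuousOn
    have hglob : ∀ u, g u ≤ g t := by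
      intro u
      obtain ⟨u', hu', e⟩ := hred u
      rw [← e]
      exact ht hu'
    have hd : deriv g t = 0 := IsLocalMax.deriv_eq_zero (Filter.Eventually.of_forall hglob)
    have h0 := h t
    rw [hd, mul_zero, zero_add] at h0
    have := (mul_eq_zero.1 h0).resolve_left hc
    rw [← this]
    exact hglob s
  · obtain ⟨t, -, ht⟩ := hcomp.exists_isMinOn hne hg.continuous.continuousOn
    have hglob : ∀ u, g t ≤ g u := by
      intro u
      obtain ⟨u', hu', e⟩ := hred u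
      rw [← e]
      exact ht hu'
    have hd : deriv g t = 0 := IsLocalMin.deriv_eq_zero (Filter.Eventually.of_forall hglob)
    have h0 := h t
    rw [hd, mul_zero, zero_add] at h0
    have := (mul_eq_zero.1 h0).resolve_left hc
    rw [← this]
    exact hglob s

theorem q_dense : Dense {s : ℝ | q s ≠ 0} := by
  have h1 := countable_zero 0 1 (Or.inr one_ne_zero)
  have h2 := countable_zero 1 3 (Or.inl one_ne_zero)
  have h3 := countable_zero 1 (-1) (Or.inl one_ne_zero)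
  have h4 := countable_zero 1 (-2) (Or.inl one_ne_zero)
  refine (Set.Countable.dense_compl ℝ (((h1.union h2).union h3).union h4)).mono ?_
  intro s hs hq
  apply hs
  unfold q at hq
  rcases mul_eq_zero.1 hq with h | h
  · rcases mul_eq_zero.1 h with h | h
    · rcases mul_eq_zero.1 h with h | h
      · left; left; left
        show 0 * Real.sin s + 1 * Real.cos s = 0
        rw [h]; ring
      · left; left; right
        show 1 * Real.sin s + 3 * Real.cos s = 0
        linarith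
    · left; right
      show 1 * Real.sin s + (-1) * Real.cos s = 0
      linarith
  · right
    show 1 * Real.sin s + (-2) * Real.cos s = 0
    linarith

theorem cont_zero (g : ℝ → ℝ) (hg : Continuous g) (h : ∀ s, q s * g s = 0) (s : ℝ) : g s = 0 := by
  have h1 : Set.EqOn g (fun _ => 0) {s : ℝ | q s ≠ 0} := by
    intro t ht
    exact (mul_eq_zero.1 (h t)).resolve_left ht
  have := Continuous.ext_on q_dense hg continuous_const h1
  rw [this]

theorem sides {A B : ℝ × ℝ → ℝ} (hA : ContDiff ℝ ∞ A) (hB : ContDiff ℝ ∞ B) (k s : ℝ)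
    (R R1 : ℝ → ℝ) (R2 : ℝ)
    (h : ∀ y, Real.cos y * k * A (s, y) + 2 * Real.sin y * B (s, y) = R y)
    (hR : ∀ y, HasDerivAt R (R1 y) y) (hR1 : HasDerivAt R1 R2 0) :
    k * A (s, 0) = R 0 ∧ k * D2 A (s, 0) + 2 * B (s, 0) = R1 0 ∧
      -(k * A (s, 0)) + k * D2 (D2 A) (s, 0) + 4 * D2 B (s, 0) = R2 := by
  have h1 : ∀ y, HasDerivAt (fun y => Real.cos y * k * A (s, y) + 2 * Real.sin y * B (s, y))
      (-Real.sin y * k * A (s, y) + Real.cos y * k * D2 A (s, y) + (2 * Real.cos y * B (s, y) +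
        2 * Real.sin y * D2 B (s, y))) y := by
    intro y
    exact (((Real.hasDerivAt_cos y).mul_const k).mul (hy hA s y)).add
      (((Real.hasDerivAt_sin y).const_mul 2).mul (hy hB s y))
  have hL : (fun y => Real.cos y * k * A (s, y) + 2 * Real.sin y * B (s, y)) = R := funext h
  have h2 : ∀ y, R1 y = -Real.sin y * k * A (s, y) + Real.cos y * k * D2 A (s, y) +
      (2 * Real.cos y * B (s, y) + 2 * Real.sin y * D2 B (s, y)) := by
    intro y
    have := h1 y
    rw [hL] at this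
    exact (hR y).unique this
  have h3 : HasDerivAt R1 ((-Real.cos 0 * k * A (s, 0) + -Real.sin 0 * k * D2 A (s, 0)) +
      (-Real.sin 0 * k * D2 A (s, 0) + Real.cos 0 * k * D2 (D2 A) (s, 0)) +
      ((2 * (-Real.sin 0) * B (s, 0) + 2 * Real.cos 0 * D2 B (s, 0)) +
      (2 * Real.cos 0 * D2 B (s, 0) + 2 * Real.sin 0 * D2 (D2 B) (s, 0)))) 0 := by
    rw [funext h2]
    exact (((((Real.hasDerivAt_sin 0).neg).mul_const k).mul (hy hA s 0)).add
      (((Real.hasDerivAt_cos 0).mul_const k).mul (hy (D2_smooth hA) s 0))).add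
      ((((Real.hasDerivAt_cos 0).const_mul 2).mul (hy hB s 0)).add
      (((Real.hasDerivAt_sin 0).const_mul 2).mul (hy (D2_smooth hB) s 0)))
  have h4 := hR1.unique h3
  refine ⟨?_, ?_, ?_⟩
  · have := h 0
    rw [Real.cos_zero, Real.sin_zero] at this
    rw [← this]; ring
  · have := h2 0
    rw [Real.cos_zero, Real.sin_zero] at this
    rw [this]; ring
  · rw [Real.cos_zero, Real.sin_zero] at h4
    rw [h4]; ring

/-- Taylor coefficients at `x₂ = 0` -/
theorem t : S_TAY := by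
  intro a b e u be W1 W2 H
  have sa := H.sa
  have sb := H.sb
  have se := H.se
  have su := H.su
  have sbe := H.sbe
  have sW1 := H.sW1
  have sW2 := H.sW2
  -- I0
  have I0 : ∀ s, q s * D1 be (s, 0) = 0 ∧ q s * D2 (D1 be) (s, 0) + 2 * D2 be (s, 0) = 0 ∧
      -(q s * D1 be (s, 0)) + q s * D2 (D2 (D1 be)) (s, 0) + 4 * D2 (D2 be) (s, 0) = 0 := by
    intro s
    exact sides (D1_smooth sbe.1) (D2_smooth sbe.1) (q s) s (fun _ => 0) (fun _ => 0) 0
      (fun y => H.I0 (s, y)) (fun y => hasDerivAt_const y 0) (hasDerivAt_const 0 0)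
  have be0 : ∀ s, D1 be (s, 0) = 0 := by
    have hc : Continuous (fun s : ℝ => D1 be (s, 0)) :=
      (D1_smooth sbe.1).continuous.comp (by fun_prop)
    exact cont_zero _ hc fun s => (I0 s).1
  have be1 : ∀ s, c1 be s = 0 := by
    apply max_pr (c1 be) (c1_smooth sbe.1) (fun s => c_per (D2_per sbe.2) s) q 2 (by norm_num)
    intro s
    rw [dc1 sbe.1]
    exact (I0 s).2.1
  have be1' : ∀ s, D2 (D1 be) (s, 0) = 0 := by
    intro s
    rw [← dc1 sbe.1]
    have : c1 be = fun _ => 0 := funext be1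
    rw [this]
    simp
  have be2 : ∀ s, c2 be s = 0 := by
    apply max_pr (c2 be) (c2_smooth sbe.1)
      (fun s => by unfold c2; rw [c_per (D2_per (D2_per sbe.2)) s]) q 4 (by norm_num)
    intro s
    rw [dc2 sbe.1]
    have h1 := (I0 s).2.2
    have h2 := (I0 s).1
    unfold c2
    linarith
  -- I1
  have I1 : ∀ s, q s * D1 e (s, 0) = 2 * Real.cos 0 * e (s, 0) ∧
      q s * D2 (D1 e) (s, 0) + 2 * D2 e (s, 0) =
        2 * (-Real.sin 0) * e (s, 0) + 2 * Real.cos 0 * D2 e (s, 0) ∧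
      -(q s * D1 e (s, 0)) + q s * D2 (D2 (D1 e)) (s, 0) + 4 * D2 (D2 e) (s, 0) =
        (2 * (-Real.cos 0) * e (s, 0) + 2 * (-Real.sin 0) * D2 e (s, 0)) +
        (2 * (-Real.sin 0) * D2 e (s, 0) + 2 * Real.cos 0 * D2 (D2 e) (s, 0)) := by
    intro s
    exact sides (D1_smooth se.1) (D2_smooth se.1) (q s) s (fun y => 2 * Real.cos y * e (s, y))
      (fun y => 2 * (-Real.sin y) * e (s, y) + 2 * Real.cos y * D2 e (s, y)) _
      (fun y => H.I1 (s, y))
      (fun y => ((Real.hasDerivAt_cos y).const_mul 2).mul (hy se.1 s y))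
      (((((Real.hasDerivAt_sin 0).neg).const_mul 2).mul (hy se.1 s 0)).add
        (((Real.hasDerivAt_cos 0).const_mul 2).mul (hy (D2_smooth se.1) s 0)))
  have e0 : ∀ s, c0 e s = 0 := by
    apply max_pr (c0 e) (c0_smooth se.1) (fun s => c_per se.2 s) q (-2) (by norm_num)
    intro s
    rw [dc0 se.1]
    have := (I1 s).1
    rw [Real.cos_zero] at this
    unfold c0
    linarith
  have e1 : ∀ s, deriv (c1 e) s = 0 := by
    have hc : Continuous (fun s : ℝ => D2 (D1 e) (s, 0)) :=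
      (D2_smooth (D1_smooth se.1)).continuous.comp (by fun_prop)
    intro s
    rw [dc1 se.1]
    refine cont_zero _ hc (fun s => ?_) s
    have := (I1 s).2.1
    rw [Real.cos_zero, Real.sin_zero] at this
    linarith
  have e1c : ∀ s, c1 e s = c1 e 0 :=
    fun s => is_const_of_deriv_eq_zero ((c1_smooth se.1).differentiable (by simp)) e1 s 0
  -- I2
  have I2 : ∀ s, q s * D1 b (s, 0) = b (s, 0) * Real.cos 0 * deriv q s -
        e (s, 0) * Real.sin 0 * q s + 2 * Real.sin 0 * f s * D1 a (s, 0) ∧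
      q s * D2 (D1 b) (s, 0) + 2 * D2 b (s, 0) =
        (D2 b (s, 0) * Real.cos 0 + b (s, 0) * (-Real.sin 0)) * deriv q s -
        (D2 e (s, 0) * Real.sin 0 + e (s, 0) * Real.cos 0) * q s +
        (2 * Real.cos 0 * f s * D1 a (s, 0) + 2 * Real.sin 0 * f s * D2 (D1 a) (s, 0)) ∧
      -(q s * D1 b (s, 0)) + q s * D2 (D2 (D1 b)) (s, 0) + 4 * D2 (D2 b) (s, 0) =
        ((D2 (D2 b) (s, 0) * Real.cos 0 + D2 b (s, 0) * (-Real.sin 0)) +
          (D2 b (s, 0) * (-Real.sin 0) + b (s, 0) * (-Real.cos 0))) * deriv q s -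
        ((D2 (D2 e) (s, 0) * Real.sin 0 + D2 e (s, 0) * Real.cos 0) +
          (D2 e (s, 0) * Real.cos 0 + e (s, 0) * (-Real.sin 0))) * q s +
        ((2 * (-Real.sin 0) * f s * D1 a (s, 0) + 2 * Real.cos 0 * f s * D2 (D1 a) (s, 0)) +
          (2 * Real.cos 0 * f s * D2 (D1 a) (s, 0) +
            2 * Real.sin 0 * f s * D2 (D2 (D1 a)) (s, 0))) := by
    intro s
    refine sides (D1_smooth sb.1) (D2_smooth sb.1) (q s) s
      (fun y => b (s, y) * Real.cos y * deriv q s - e (s, y) * Real.sin y * q s +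
        2 * Real.sin y * f s * D1 a (s, y))
      (fun y => (D2 b (s, y) * Real.cos y + b (s, y) * (-Real.sin y)) * deriv q s -
        (D2 e (s, y) * Real.sin y + e (s, y) * Real.cos y) * q s +
        (2 * Real.cos y * f s * D1 a (s, y) + 2 * Real.sin y * f s * D2 (D1 a) (s, y))) _
      (fun y => H.I2 (s, y)) ?_ ?_
    · intro y
      exact ((((hy sb.1 s y).mul (Real.hasDerivAt_cos y)).mul_const _).sub
        (((hy se.1 s y).mul (Real.hasDerivAt_sin y)).mul_const _)).add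
        ((((Real.hasDerivAt_sin y).const_mul 2).mul_const (f s)).mul (hy (D1_smooth sa.1) s y))
    · exact (((((hy (D2_smooth sb.1) s 0).mul (Real.hasDerivAt_cos 0)).add
          ((hy sb.1 s 0).mul (Real.hasDerivAt_sin 0).neg)).mul_const _).sub
        ((((hy (D2_smooth se.1) s 0).mul (Real.hasDerivAt_sin 0)).add
          ((hy se.1 s 0).mul (Real.hasDerivAt_cos 0))).mul_const _)).add
        (((((Real.hasDerivAt_cos 0).const_mul 2).mul_const (f s)).mul
          (hy (D1_smooth sa.1) s 0)).add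
        ((((Real.hasDerivAt_sin 0).const_mul 2).mul_const (f s)).mul
          (hy (D2_smooth (D1_smooth sa.1)) s 0)))
  -- I3, order 1
  have I3 : ∀ s, q s * D2 (D1 u) (s, 0) + 2 * D2 u (s, 0) =
      (D2 b (s, 0) * D1 a (s, 0) + b (s, 0) * D2 (D1 a) (s, 0)) +
      (D2 e (s, 0) * D2 a (s, 0) + e (s, 0) * D2 (D2 a) (s, 0)) -
      (1 / 2 * Real.cos 0 * Real.cos 0 + 1 / 2 * Real.sin 0 * (-Real.sin 0)) *
        deriv (fun t => f t * deriv (deriv q) t) s -
      ((D2 W1 (s, 0) * D1 be (s, 0) + W1 (s, 0) * D2 (D1 be) (s, 0)) +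
        (D2 W2 (s, 0) * D2 be (s, 0) + W2 (s, 0) * D2 (D2 be) (s, 0))) := by
    intro s
    have hR : ∀ y, HasDerivAt (fun y => b (s, y) * D1 a (s, y) + e (s, y) * D2 a (s, y)
        - 1 / 2 * Real.sin y * Real.cos y * deriv (fun t => f t * deriv (deriv q) t) s
        - (W1 (s, y) * D1 be (s, y) + W2 (s, y) * D2 be (s, y)))
        ((D2 b (s, y) * D1 a (s, y) + b (s, y) * D2 (D1 a) (s, y)) +
      (D2 e (s, y) * D2 a (s, y) + e (s, y) * D2 (D2 a) (s, y)) -
      (1 / 2 * Real.cos y * Real.cos y + 1 / 2 * Real.sin y * (-Real.sin y)) *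
        deriv (fun t => f t * deriv (deriv q) t) s -
      ((D2 W1 (s, y) * D1 be (s, y) + W1 (s, y) * D2 (D1 be) (s, y)) +
        (D2 W2 (s, y) * D2 be (s, y) + W2 (s, y) * D2 (D2 be) (s, y)))) y := by
      intro y
      exact ((((hy sb.1 s y).mul (hy (D1_smooth sa.1) s y)).add
        ((hy se.1 s y).mul (hy (D2_smooth sa.1) s y))).sub
        ((((Real.hasDerivAt_sin y).const_mul (1 / 2)).mul (Real.hasDerivAt_cos y)).mul_const _)).sub
        (((hy sW1.1 s y).mul (hy (D1_smooth sbe.1) s y)).add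
          ((hy sW2.1 s y).mul (hy (D2_smooth sbe.1) s y)))
    have hL := (((Real.hasDerivAt_cos 0).mul_const (q s)).mul (hy (D1_smooth su.1) s 0)).add
      (((Real.hasDerivAt_sin 0).const_mul 2).mul (hy (D2_smooth su.1) s 0))
    have hfun : (fun y => Real.cos y * q s * D1 u (s, y) + 2 * Real.sin y * D2 u (s, y)) =
        (fun y => b (s, y) * D1 a (s, y) + e (s, y) * D2 a (s, y)
        - 1 / 2 * Real.sin y * Real.cos y * deriv (fun t => f t * deriv (deriv q) t) s
        - (W1 (s, y) * D1 be (s, y) + W2 (s, y) * D2 be (s, y))) :=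
      funext fun y => H.I3 (s, y)
    have hL' : HasDerivAt (fun y => Real.cos y * q s * D1 u (s, y) + 2 * Real.sin y * D2 u (s, y))
      _ 0 := hL
    rw [hfun] at hL'
    have := (hR 0).unique hL'
    rw [this, Real.cos_zero, Real.sin_zero]
    ring
  refine ⟨c0 a, c1 a, c0 b, c1 b, c2 b, c1 u, c1 e 0, ?_⟩
  refine ⟨c0_smooth sa.1, c1_smooth sa.1, c0_smooth sb.1, c1_smooth sb.1, c2_smooth sb.1,
    c1_smooth su.1, ?_, ?_, ?_, ?_⟩
  · intro s
    have h := (I2 s).1
    rw [Real.cos_zero, Real.sin_zero] at h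
    rw [dc0 sb.1]
    unfold c0
    linarith
  · intro s
    have h := (I2 s).2.1
    rw [Real.cos_zero, Real.sin_zero] at h
    rw [dc1 sb.1, dc0 sa.1]
    have he : e (s, 0) = 0 := e0 s
    rw [he] at h
    unfold c1
    linarith
  · intro s
    have h := (I2 s).2.2
    have h0 := (I2 s).1
    rw [Real.cos_zero, Real.sin_zero] at h h0
    rw [dc2 sb.1, dc1 sa.1]
    have he : e (s, 0) = 0 := e0 s
    have he1 : D2 e (s, 0) = c1 e 0 := e1c s
    rw [he, he1] at h
    unfold c2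
    linarith
  · intro s
    have h := I3 s
    rw [Real.cos_zero, Real.sin_zero] at h
    rw [dc1 su.1, dc1 sa.1, dc0 sa.1]
    have he : e (s, 0) = 0 := e0 s
    have he1 : D2 e (s, 0) = c1 e 0 := e1c s
    have hb0 := be0 s
    have hb1 := be1' s
    have hb1' : D2 be (s, 0) = 0 := be1 s
    have hb2 : D2 (D2 be) (s, 0) = 0 := by
      have := be2 s
      unfold c2 at this
      linarith
    rw [he, he1, hb0, hb1, hb1', hb2] at h
    unfold c0 c1
    unfold c1 at h
    linarith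

end Pool.Agent.W7.QI
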